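import Mathlib
import Pool.Agent.H19.CG.Tab

/-!
MP_ee952b_co, Maker's side: for `3 ≤ d ≤ 13` and every `n` Maker guarantees in the sequence game on
`Q^d_n` the proportion `c / (c + 1)` of the height, with `c = cst d` from the table in
`Pool.Agent.H19.CG.Tab`: 4, 7, 10, 21, 66, 236, 961, 4202, 20030, 100315, 538004 for
`d = 3, 4, .., 13`.
-/

namespace Pool.Agent.Results.MP_ee952b_co.AlmostFullScore

open Pool.Agent.H19.CG

/-- `c h(Q^d_n) ≤ (c + 1) g_seq(Q^d_n)` with `c = cst d`. -/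
theorem result : ∀ d n : ℕ, 3 ≤ d → d ≤ 13 →
    cst d * ht (Q d n) ≤ (cst d + 1) * gseq (Q d n) := by
  intro d n h3 h13
  rw [ht_eq (by omega)]
  exact low d n h3 h13

end Pool.Agent.Results.MP_ee952b_co.AlmostFullScore
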