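import Mathlib
import Pool.Agent.H19.CG.Tab

/-!
MP_ee952b_co, the exact values up to an explicit size: for `4 ≤ d ≤ 13` and `n ≤ N_d` both games on
`Q^d_n` have the value `h(Q^d_n) = n + 1`, where `N_d = hrz d` is 6, 11, 31, 116, 493, 2339,
11676, 62551, 347621, 2047813 for `d = 4, 5, .., 13` (the table is in `Pool.Agent.H19.CG.Tab`).
-/

namespace Pool.Agent.Results.MP_ee952b_co.FullScoreUpTo

open Pool.Agent.H19.CG

/-- For `n ≤ hrz d` both values are the height. -/
theorem result : ∀ d n : ℕ, 4 ≤ d → d ≤ 13 → n ≤ hrz d →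
    gseq (Q d n) = ht (Q d n) ∧ gset (Q d n) = ht (Q d n) := by
  intro d n h4 h13 hn
  rw [ht_eq (by omega)]
  exact hor d n (by omega) h13 hn

end Pool.Agent.Results.MP_ee952b_co.FullScoreUpTo
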