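import Mathlib
import Pool.Agent.H37.CG.Maker

set_option autoImplicit false

namespace Pool.Agent.Results.MP_ee952b_co.SeqDimThree

open Pool.Agent.H37.CG

/-- The sequence game on `Q^3_n`, where `h(Q^3_n) = n + 1`. Breaker can keep Maker's score at most
`h - ⌊h / 8⌋` for every `n`, and for `n ≤ 7` this is the exact value. In particular Maker can
guarantee a full chain (score `n + 1`) if and only if `n ≤ 6`. -/
theorem result :
    (∀ n : ℕ, gseq (Q 3 n) ≤ n + 1 - (n + 1) / 8) ∧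
    (∀ n : ℕ, n ≤ 7 → gseq (Q 3 n) = n + 1 - (n + 1) / 8) := by
  have hub : ∀ n : ℕ, ∀ k ∈ {k | SeqGuarantee (Q 3 n) k}, k ≤ n + 1 - (n + 1) / 8 := by
    intro n k hk
    have h1 := upper k hk
    omega
  have hle : ∀ n : ℕ, gseq (Q 3 n) ≤ n + 1 - (n + 1) / 8 := by
    intro n
    exact csSup_le ⟨1, lower (r := 0) (by omega) (by omega)⟩ (hub n)
  refine ⟨hle, ?_⟩
  intro n hn
  refine le_antisymm (hle n) ?_
  have hbdd : BddAbove {k | SeqGuarantee (Q 3 n) k} := ⟨_, hub n⟩
  have h1 : min n 6 + 1 ≤ gseq (Q 3 n) :=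
    le_csSup hbdd (lower (r := min n 6) (by omega) (by omega))
  omega

end Pool.Agent.Results.MP_ee952b_co.SeqDimThree
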